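import Mathlib

/-!
# A search trajectory of competitive ratio smaller than `4 - p`

`MP_1aa7fe_lc`, Q1, asks whether every trajectory on the half-line has competitive ratio at least
`4 - p`, where `p` is the probability that the treasure is detected in one pass.  Here is a
trajectory of ratio at most `52 / 15 = 3.4666...` for `p = 1 / 2`, so the answer is no.

The turning points of the trajectory are `0, 22, 20, 40, 33, 66, 22, 24` (divided by `33`), and then
the same numbers multiplied by `2`, by `4`, by `8`, and so on.  Let `W x` be the expected time of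
the detection of a treasure at the place `x` (in units of `1 / 33`).  It satisfies
`W x = R x (154 + 2 W (x / 2))`, where `R x y` is the expected time if the search starts with the
first eight moves and needs the time `y` in the mean if the treasure is not detected in them.  The
function `Wh` below satisfies `R x (154 + 2 Wh (x / 2)) ≤ Wh x`, and so `W ≤ Wh`.
-/

set_option autoImplicit false

namespace Pool.Agent.Results.MP_1aa7fe_lc.BelowFourMinusP

open Finset
open scoped ENNReal

/-- `t 0, t 1, t 2, ...` are the turning points of a trajectory on the half-line `[0, ∞)`: it starts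
at `0` and moves outward from `t (2 i)` to `t (2 i + 1)` and inward from `t (2 i + 1)` to
`t (2 i + 2)` -/
def IsTraj (t : ℕ → ℝ) : Prop :=
  t 0 = 0 ∧ (∀ i, 0 ≤ t i) ∧ (∀ i, t (2 * i) < t (2 * i + 1)) ∧
    ∀ i, t (2 * i + 2) < t (2 * i + 1)

/-- the time at which the turning point `t k` is reached, at unit speed -/
noncomputable def time (t : ℕ → ℝ) (k : ℕ) : ℝ := ∑ j ∈ range k, |t (j + 1) - t j|

/-- the probability that a treasure at `d`, not detected before, is detected during the move from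
the turning point `u` to the turning point `v`: it is `1` at the turning point `v`, it is `p` if
the searcher passes over `d`, and `0` otherwise -/
noncomputable def det (p u v d : ℝ) : ℝ :=
  if v = d then 1 else if (u < d ∧ d < v) ∨ (v < d ∧ d < u) then p else 0

/-- the probability that a treasure at `d` is not detected in the first `k` moves -/
noncomputable def surv (p : ℝ) (t : ℕ → ℝ) (d : ℝ) (k : ℕ) : ℝ :=
  ∏ j ∈ range k, (1 - det p (t j) (t (j + 1)) d)

/-- the expected time of the first detection of a treasure at `d`: the sum over the moves `k` of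
the probability that the treasure is first detected during this move, times the time at which the
searcher is at `d` during this move -/
noncomputable def expTime (p : ℝ) (t : ℕ → ℝ) (d : ℝ) : ℝ≥0∞ :=
  ∑' k, ENNReal.ofReal (surv p t d k * det p (t k) (t (k + 1)) d * (time t k + |d - t k|))

/-- the competitive ratio of the trajectory `t`: the supremum over `d ≥ 1` of `p E(d) / d` -/
noncomputable def ratio (p : ℝ) (t : ℕ → ℝ) : ℝ≥0∞ :=
  ⨆ d : {d : ℝ // 1 ≤ d}, ENNReal.ofReal p * expTime p t d / ENNReal.ofReal d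

/-- the first eight turning points, in units of `1 / 33` -/
def A : ℕ → ℝ
  | 0 => 0
  | 1 => 22
  | 2 => 20
  | 3 => 40
  | 4 => 33
  | 5 => 66
  | 6 => 22
  | 7 => 24
  | _ => 0

/-- the trajectory -/
noncomputable def tt (k : ℕ) : ℝ := 2 ^ (k / 8) * A (k % 8) / 33

theorem det_nonneg {p : ℝ} (hp : 0 ≤ p) (u v d : ℝ) : 0 ≤ det p u v d := by
  unfold det; split_ifs <;> linarith

theorem det_le {p : ℝ} (hp : p ≤ 1) (u v d : ℝ) : det p u v d ≤ 1 := by
  unfold det; split_ifs <;> linarith

theorem det_up {p u v x : ℝ} (h1 : u < x) (h2 : x < v) : det p u v x = p := by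
  unfold det; rw [if_neg (by linarith [h2.ne']), if_pos (Or.inl ⟨h1, h2⟩)]

theorem det_down {p u v x : ℝ} (h1 : v < x) (h2 : x < u) : det p u v x = p := by
  unfold det; rw [if_neg (by linarith [h2.ne']), if_pos (Or.inr ⟨h1, h2⟩)]

theorem det_hit {p u v x : ℝ} (h1 : v = x) : det p u v x = 1 := by
  unfold det; rw [if_pos h1]

theorem det_lo {p u v x : ℝ} (h1 : x < u) (h2 : x < v) : det p u v x = 0 := by
  unfold det
  rw [if_neg (by intro h; linarith), if_neg]
  rintro (⟨h3, -⟩ | ⟨h3, -⟩) <;> linarith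

theorem det_hi {p u v x : ℝ} (h1 : u < x) (h2 : v < x) : det p u v x = 0 := by
  unfold det
  rw [if_neg (by intro h; linarith), if_neg]
  rintro (⟨-, h3⟩ | ⟨-, h3⟩) <;> linarith

theorem det_scale {p c : ℝ} (hc : 0 < c) (u v x : ℝ) :
    det p (c * u) (c * v) (c * x) = det p u v x := by
  unfold det
  simp only [mul_lt_mul_iff_right₀ hc, mul_right_inj' hc.ne']

theorem surv_succ (p : ℝ) (t : ℕ → ℝ) (d : ℝ) (k : ℕ) :
    surv p t d (k + 1) = surv p t d k * (1 - det p (t k) (t (k + 1)) d) := by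
  unfold surv; rw [prod_range_succ]

theorem surv_nonneg {p : ℝ} (hp : p ≤ 1) (t : ℕ → ℝ) (d : ℝ) (k : ℕ) : 0 ≤ surv p t d k :=
  prod_nonneg fun j _ => by linarith [det_le hp (t j) (t (j + 1)) d]

theorem time_succ (t : ℕ → ℝ) (k : ℕ) : time t (k + 1) = time t k + |t (k + 1) - t k| := by
  unfold time; rw [sum_range_succ]

/-- the expected time of the first eight moves, with `y` for the rest -/
noncomputable def R (x y : ℝ) : ℝ :=
  det (1 / 2) 0 22 x * |x - 0| + (1 - det (1 / 2) 0 22 x) * (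
  det (1 / 2) 22 20 x * (22 + |x - 22|) + (1 - det (1 / 2) 22 20 x) * (
  det (1 / 2) 20 40 x * (24 + |x - 20|) + (1 - det (1 / 2) 20 40 x) * (
  det (1 / 2) 40 33 x * (44 + |x - 40|) + (1 - det (1 / 2) 40 33 x) * (
  det (1 / 2) 33 66 x * (51 + |x - 33|) + (1 - det (1 / 2) 33 66 x) * (
  det (1 / 2) 66 22 x * (84 + |x - 66|) + (1 - det (1 / 2) 66 22 x) * (
  det (1 / 2) 22 24 x * (128 + |x - 22|) + (1 - det (1 / 2) 22 24 x) * (
  det (1 / 2) 24 0 x * (130 + |x - 24|) + (1 - det (1 / 2) 24 0 x) * y)))))))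

/-- an upper bound for the expected time -/
noncomputable def Wh (x : ℝ) : ℝ :=
  if x ≤ 20 then 154 + x / 3 else if x ≤ 22 then 50 + x / 3 else
    if x ≤ 24 then 365 / 4 + x / 3 else if x < 33 then 155 + x / 3 else 104 / 15 * x - 154

theorem Wh1 {x : ℝ} (h : x ≤ 20) : Wh x = 154 + x / 3 := by
  unfold Wh; rw [if_pos h]

theorem Wh2 {x : ℝ} (h : 20 < x) (h' : x ≤ 22) : Wh x = 50 + x / 3 := by
  unfold Wh; rw [if_neg (by linarith), if_pos h']

theorem Wh3 {x : ℝ} (h : 22 < x) (h' : x ≤ 24) : Wh x = 365 / 4 + x / 3 := by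
  unfold Wh; rw [if_neg (by linarith), if_neg (by linarith), if_pos h']

theorem Wh4 {x : ℝ} (h : 24 < x) (h' : x < 33) : Wh x = 155 + x / 3 := by
  unfold Wh; rw [if_neg (by linarith), if_neg (by linarith), if_neg (by linarith), if_pos h']

theorem Wh5 {x : ℝ} (h : 33 ≤ x) : Wh x = 104 / 15 * x - 154 := by
  unfold Wh
  rw [if_neg (by linarith), if_neg (by linarith), if_neg (by linarith), if_neg (by linarith)]

theorem per (x : ℝ) (hx : 0 < x) : R x (154 + 2 * Wh (x / 2)) ≤ Wh x := by
  rcases lt_trichotomy x 20 with h20 | h20 | h20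
  · -- (0, 20)
    rw [R, det_up hx (by linarith : x < 22), det_lo (by linarith : x < 22) h20,
      det_lo h20 (by linarith : x < 40), det_lo (by linarith : x < 40) (by linarith : x < 33),
      det_lo (by linarith : x < 33) (by linarith : x < 66),
      det_lo (by linarith : x < 66) (by linarith : x < 22),
      det_lo (by linarith : x < 22) (by linarith : x < 24),
      det_down hx (by linarith : x < 24), Wh1 (by linarith : x / 2 ≤ 20), Wh1 h20.le,
      abs_of_nonneg (by linarith : 0 ≤ x - 0), abs_of_nonpos (by linarith : x - 24 ≤ 0)]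
    linarith
  · rw [R, det_up hx (by linarith : x < 22), det_hit h20.symm,
      abs_of_nonneg (by linarith : 0 ≤ x - 0), abs_of_nonpos (by linarith : x - 22 ≤ 0),
      Wh1 h20.le]
    linarith
  rcases lt_trichotomy x 22 with h22 | h22 | h22
  · rw [R, det_up hx h22, det_down h20 h22,
      det_up h20 (by linarith : x < 40), det_lo (by linarith : x < 40) (by linarith : x < 33),
      det_lo (by linarith : x < 33) (by linarith : x < 66),
      det_lo (by linarith : x < 66) (by linarith : x < 22),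
      det_lo (by linarith : x < 22) (by linarith : x < 24),
      det_down hx (by linarith : x < 24), Wh1 (by linarith : x / 2 ≤ 20), Wh2 h20 h22.le,
      abs_of_nonneg (by linarith : 0 ≤ x - 0), abs_of_nonpos (by linarith : x - 22 ≤ 0),
      abs_of_nonneg (by linarith : 0 ≤ x - 20), abs_of_nonpos (by linarith : x - 24 ≤ 0)]
    linarith
  · rw [R, det_hit h22.symm, abs_of_nonneg (by linarith : 0 ≤ x - 0), Wh2 h20 h22.le]
    linarith
  rcases lt_trichotomy x 24 with h24 | h24 | h24
  · rw [R, det_hi hx h22, det_hi h22 h20,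
      det_up h20 (by linarith : x < 40), det_lo (by linarith : x < 40) (by linarith : x < 33),
      det_lo (by linarith : x < 33) (by linarith : x < 66),
      det_down h22 (by linarith : x < 66), det_up h22 h24,
      det_down hx h24, Wh1 (by linarith : x / 2 ≤ 20), Wh3 h22 h24.le,
      abs_of_nonneg (by linarith : 0 ≤ x - 20), abs_of_nonpos (by linarith : x - 66 ≤ 0),
      abs_of_nonneg (by linarith : 0 ≤ x - 22), abs_of_nonpos (by linarith : x - 24 ≤ 0)]
    linarith
  · rw [R, det_hi hx h22, det_hi h22 h20,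
      det_up h20 (by linarith : x < 40), det_lo (by linarith : x < 40) (by linarith : x < 33),
      det_lo (by linarith : x < 33) (by linarith : x < 66),
      det_down h22 (by linarith : x < 66), det_hit h24.symm, Wh3 h22 h24.le,
      abs_of_nonneg (by linarith : 0 ≤ x - 20), abs_of_nonpos (by linarith : x - 66 ≤ 0),
      abs_of_nonneg (by linarith : 0 ≤ x - 22)]
    linarith
  rcases lt_trichotomy x 33 with h33 | h33 | h33
  · rw [R, det_hi hx h22, det_hi h22 h20,
      det_up h20 (by linarith : x < 40), det_lo (by linarith : x < 40) h33,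
      det_lo h33 (by linarith : x < 66),
      det_down h22 (by linarith : x < 66), det_hi h22 h24, det_hi h24 hx,
      Wh1 (by linarith : x / 2 ≤ 20), Wh4 h24 h33,
      abs_of_nonneg (by linarith : 0 ≤ x - 20), abs_of_nonpos (by linarith : x - 66 ≤ 0)]
    linarith
  · rw [R, det_hi hx h22, det_hi h22 h20,
      det_up h20 (by linarith : x < 40), det_hit h33.symm, Wh5 h33.ge,
      abs_of_nonneg (by linarith : 0 ≤ x - 20), abs_of_nonpos (by linarith : x - 40 ≤ 0)]
    linarith
  rcases lt_trichotomy x 40 with h40 | h40 | h40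
  · rw [R, det_hi hx h22, det_hi h22 h20, det_up h20 h40, det_down h33 h40,
      det_up h33 (by linarith : x < 66),
      det_down h22 (by linarith : x < 66), det_hi h22 h24, det_hi h24 hx,
      Wh1 (by linarith : x / 2 ≤ 20), Wh5 h33.le,
      abs_of_nonneg (by linarith : 0 ≤ x - 20), abs_of_nonpos (by linarith : x - 66 ≤ 0),
      abs_of_nonpos (by linarith : x - 40 ≤ 0), abs_of_nonneg (by linarith : 0 ≤ x - 33)]
    linarith
  · rw [R, det_hi hx h22, det_hi h22 h20, det_hit h40.symm, Wh5 h33.le,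
      abs_of_nonneg (by linarith : 0 ≤ x - 20)]
    linarith
  rcases lt_trichotomy x 66 with h66 | h66 | h66
  · rw [R, det_hi hx h22, det_hi h22 h20, det_hi h20 h40, det_hi h40 h33,
      det_up h33 h66, det_down h22 h66, det_hi h22 h24, det_hi h24 hx, Wh5 h33.le,
      abs_of_nonpos (by linarith : x - 66 ≤ 0), abs_of_nonneg (by linarith : 0 ≤ x - 33)]
    rcases le_or_gt (x / 2) 22 with h | h
    · rw [Wh2 (by linarith) h]
      linarith
    · rcases le_or_gt (x / 2) 24 with h' | h'
      · rw [Wh3 h h']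
        linarith
      · rw [Wh4 h' (by linarith)]
        linarith
  · rw [R, det_hi hx h22, det_hi h22 h20, det_hi h20 h40, det_hi h40 h33, det_hit h66.symm,
      Wh5 h33.le, abs_of_nonneg (by linarith : 0 ≤ x - 33)]
    linarith
  · rw [R, det_hi hx h22, det_hi h22 h20, det_hi h20 h40, det_hi h40 h33,
      det_hi h33 h66, det_hi h66 h22, det_hi h22 h24, det_hi h24 hx, Wh5 h33.le,
      Wh5 (by linarith : 33 ≤ x / 2)]
    linarith

theorem tt_val (j i : ℕ) (hi : i < 8) : tt (8 * j + i) = 2 ^ j / 33 * A i := by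
  unfold tt
  have h1 : (8 * j + i) / 8 = j := by omega
  have h2 : (8 * j + i) % 8 = i := by omega
  rw [h1, h2]; ring

theorem tt_8 (j : ℕ) : tt (8 * j + 8) = 2 ^ j / 33 * 0 := by
  have := tt_val (j + 1) 0 (by norm_num)
  rw [show 8 * (j + 1) + 0 = 8 * j + 8 by ring] at this
  rw [this]; simp [A]

theorem step (p : ℝ) (t : ℕ → ℝ) (d f Y q : ℝ) (k : ℕ) (hq : det p (t k) (t (k + 1)) d = q)
    (hf : time t k + |d - t k| = f) :
    surv p t d k * det p (t k) (t (k + 1)) d * (time t k + |d - t k|) + surv p t d (k + 1) * Y =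
      surv p t d k * (q * f + (1 - q) * Y) := by
  rw [surv_succ, hq, hf]; ring

theorem abs_scale {c : ℝ} (hc : 0 < c) (a b : ℝ) : |c * a - c * b| = c * |a - b| := by
  rw [← mul_sub, abs_mul, abs_of_pos hc]

theorem time_8 (j : ℕ) : time tt (8 * (j + 1)) = time tt (8 * j) + 2 ^ j / 33 * 154 := by
  have hc : (0 : ℝ) < 2 ^ j / 33 := by positivity
  rw [show 8 * (j + 1) = 8 * j + 7 + 1 by ring, time_succ, time_succ, time_succ, time_succ,
    time_succ, time_succ, time_succ, show 8 * j + 1 + 1 = 8 * j + 2 by ring,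
    show 8 * j + 2 + 1 = 8 * j + 3 by ring, show 8 * j + 3 + 1 = 8 * j + 4 by ring,
    show 8 * j + 4 + 1 = 8 * j + 5 by ring, show 8 * j + 5 + 1 = 8 * j + 6 by ring,
    show 8 * j + 6 + 1 = 8 * j + 7 by ring, show 8 * j + 7 + 1 = 8 * j + 8 by ring,
    time_succ, tt_8, tt_val j 7 (by norm_num), tt_val j 6 (by norm_num), tt_val j 5 (by norm_num),
    tt_val j 4 (by norm_num), tt_val j 3 (by norm_num), tt_val j 2 (by norm_num),
    tt_val j 1 (by norm_num)]
  have h0 := tt_val j 0 (by norm_num)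
  rw [add_zero] at h0
  rw [h0]
  simp only [abs_scale hc, A]
  norm_num
  ring

/-- the contribution of the first `n` moves to the expected time -/
noncomputable def part (p : ℝ) (t : ℕ → ℝ) (d : ℝ) (n : ℕ) : ℝ :=
  ∑ k ∈ range n, surv p t d k * det p (t k) (t (k + 1)) d * (time t k + |d - t k|)

theorem pstep (p : ℝ) (t : ℕ → ℝ) (d : ℝ) (k : ℕ) (Y q f : ℝ)
    (hq : det p (t k) (t (k + 1)) d = q) (hf : time t k + |d - t k| = f) :
    part p t d (k + 1) + surv p t d (k + 1) * Y =
      part p t d k + surv p t d k * (q * f + (1 - q) * Y) := by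
  rw [part, sum_range_succ, ← step p t d f Y q k hq hf, part]
  ring

theorem block (j : ℕ) (x : ℝ) (hx : 0 < x) :
    part (1 / 2) tt (2 ^ j / 33 * x) (8 * (j + 1)) +
      surv (1 / 2) tt (2 ^ j / 33 * x) (8 * (j + 1)) *
        (time tt (8 * (j + 1)) + 2 ^ (j + 1) / 33 * Wh (x / 2)) ≤
    part (1 / 2) tt (2 ^ j / 33 * x) (8 * j) +
      surv (1 / 2) tt (2 ^ j / 33 * x) (8 * j) * (time tt (8 * j) + 2 ^ j / 33 * Wh x) := by
  have hc : (0 : ℝ) < 2 ^ j / 33 := by positivity
  have hT := time_8 j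
  obtain ⟨c, hcc⟩ : ∃ c : ℝ, c = 2 ^ j / 33 := ⟨_, rfl⟩
  have e0 : tt (8 * j) = c * 0 := by
    have h0 := tt_val j 0 (by norm_num)
    rw [add_zero] at h0
    rw [h0, hcc]; rfl
  have e1 : tt (8 * j + 1) = c * 22 := by rw [tt_val j 1 (by norm_num), hcc]; rfl
  have e2 : tt (8 * j + 2) = c * 20 := by rw [tt_val j 2 (by norm_num), hcc]; rfl
  have e3 : tt (8 * j + 3) = c * 40 := by rw [tt_val j 3 (by norm_num), hcc]; rfl
  have e4 : tt (8 * j + 4) = c * 33 := by rw [tt_val j 4 (by norm_num), hcc]; rfl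
  have e5 : tt (8 * j + 5) = c * 66 := by rw [tt_val j 5 (by norm_num), hcc]; rfl
  have e6 : tt (8 * j + 6) = c * 22 := by rw [tt_val j 6 (by norm_num), hcc]; rfl
  have e7 : tt (8 * j + 7) = c * 24 := by rw [tt_val j 7 (by norm_num), hcc]; rfl
  have e8 : tt (8 * j + 8) = c * 0 := by rw [tt_8, hcc]
  have h2 : (2 : ℝ) ^ (j + 1) / 33 = 2 * c := by rw [pow_succ, hcc]; ring
  rw [h2]
  rw [← hcc] at hc hT ⊢
  have t1 : time tt (8 * j + 1) = time tt (8 * j) + c * 22 := by
    rw [time_succ, e1, e0, abs_scale hc]; norm_num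
  have t2 : time tt (8 * j + 2) = time tt (8 * j) + c * 24 := by
    rw [show 8 * j + 2 = 8 * j + 1 + 1 by ring, time_succ, t1,
      show 8 * j + 1 + 1 = 8 * j + 2 by ring, e1, e2, abs_scale hc]
    norm_num; ring
  have t3 : time tt (8 * j + 3) = time tt (8 * j) + c * 44 := by
    rw [show 8 * j + 3 = 8 * j + 2 + 1 by ring, time_succ, t2,
      show 8 * j + 2 + 1 = 8 * j + 3 by ring, e2, e3, abs_scale hc]
    norm_num; ring
  have t4 : time tt (8 * j + 4) = time tt (8 * j) + c * 51 := by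
    rw [show 8 * j + 4 = 8 * j + 3 + 1 by ring, time_succ, t3,
      show 8 * j + 3 + 1 = 8 * j + 4 by ring, e3, e4, abs_scale hc]
    norm_num; ring
  have t5 : time tt (8 * j + 5) = time tt (8 * j) + c * 84 := by
    rw [show 8 * j + 5 = 8 * j + 4 + 1 by ring, time_succ, t4,
      show 8 * j + 4 + 1 = 8 * j + 5 by ring, e4, e5, abs_scale hc]
    norm_num; ring
  have t6 : time tt (8 * j + 6) = time tt (8 * j) + c * 128 := by
    rw [show 8 * j + 6 = 8 * j + 5 + 1 by ring, time_succ, t5,
      show 8 * j + 5 + 1 = 8 * j + 6 by ring, e5, e6, abs_scale hc]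
    norm_num; ring
  have t7 : time tt (8 * j + 7) = time tt (8 * j) + c * 130 := by
    rw [show 8 * j + 7 = 8 * j + 6 + 1 by ring, time_succ, t6,
      show 8 * j + 6 + 1 = 8 * j + 7 by ring, e6, e7, abs_scale hc]
    norm_num; ring
  rw [hT]
  obtain ⟨T, hTT⟩ : ∃ T : ℝ, T = time tt (8 * j) := ⟨_, rfl⟩
  rw [← hTT] at t1 t2 t3 t4 t5 t6 t7 ⊢
  have key := per x hx
  have s7 := fun Y => pstep (1 / 2) tt (c * x) (8 * j + 7) Y (det (1 / 2) 24 0 x)
    (T + c * (130 + |x - 24|))
    (by rw [show 8 * j + 7 + 1 = 8 * j + 8 by ring, e7, e8, det_scale hc])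
    (by rw [t7, e7, abs_scale hc]; ring)
  have s6 := fun Y => pstep (1 / 2) tt (c * x) (8 * j + 6) Y (det (1 / 2) 22 24 x)
    (T + c * (128 + |x - 22|))
    (by rw [show 8 * j + 6 + 1 = 8 * j + 7 by ring, e6, e7, det_scale hc])
    (by rw [t6, e6, abs_scale hc]; ring)
  have s5 := fun Y => pstep (1 / 2) tt (c * x) (8 * j + 5) Y (det (1 / 2) 66 22 x)
    (T + c * (84 + |x - 66|))
    (by rw [show 8 * j + 5 + 1 = 8 * j + 6 by ring, e5, e6, det_scale hc])
    (by rw [t5, e5, abs_scale hc]; ring)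
  have s4 := fun Y => pstep (1 / 2) tt (c * x) (8 * j + 4) Y (det (1 / 2) 33 66 x)
    (T + c * (51 + |x - 33|))
    (by rw [show 8 * j + 4 + 1 = 8 * j + 5 by ring, e4, e5, det_scale hc])
    (by rw [t4, e4, abs_scale hc]; ring)
  have s3 := fun Y => pstep (1 / 2) tt (c * x) (8 * j + 3) Y (det (1 / 2) 40 33 x)
    (T + c * (44 + |x - 40|))
    (by rw [show 8 * j + 3 + 1 = 8 * j + 4 by ring, e3, e4, det_scale hc])
    (by rw [t3, e3, abs_scale hc]; ring)
  have s2 := fun Y => pstep (1 / 2) tt (c * x) (8 * j + 2) Y (det (1 / 2) 20 40 x)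
    (T + c * (24 + |x - 20|))
    (by rw [show 8 * j + 2 + 1 = 8 * j + 3 by ring, e2, e3, det_scale hc])
    (by rw [t2, e2, abs_scale hc]; ring)
  have s1 := fun Y => pstep (1 / 2) tt (c * x) (8 * j + 1) Y (det (1 / 2) 22 20 x)
    (T + c * (22 + |x - 22|))
    (by rw [show 8 * j + 1 + 1 = 8 * j + 2 by ring, e1, e2, det_scale hc])
    (by rw [t1, e1, abs_scale hc]; ring)
  have s0 := fun Y => pstep (1 / 2) tt (c * x) (8 * j) Y (det (1 / 2) 0 22 x)
    (T + c * |x - 0|)
    (by rw [e0, e1, det_scale hc])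
    (by rw [← hTT, e0, abs_scale hc])
  have r : ∀ q F Y : ℝ, q * (T + c * F) + (1 - q) * (T + c * Y) =
      T + c * (q * F + (1 - q) * Y) := fun q F Y => by ring
  rw [show 8 * (j + 1) = 8 * j + 7 + 1 by ring,
    show T + c * 154 + 2 * c * Wh (x / 2) = T + c * (154 + 2 * Wh (x / 2)) by ring,
    s7, r, show 8 * j + 7 = 8 * j + 6 + 1 by ring, s6, r,
    show 8 * j + 6 = 8 * j + 5 + 1 by ring, s5, r,
    show 8 * j + 5 = 8 * j + 4 + 1 by ring, s4, r,
    show 8 * j + 4 = 8 * j + 3 + 1 by ring, s3, r,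
    show 8 * j + 3 = 8 * j + 2 + 1 by ring, s2, r,
    show 8 * j + 2 = 8 * j + 1 + 1 by ring, s1, r, s0, r]
  have hs := surv_nonneg (by norm_num : (1 / 2 : ℝ) ≤ 1) tt (c * x) (8 * j)
  have h3 : T + c * R x (154 + 2 * Wh (x / 2)) ≤ T + c * Wh x := by
    have := mul_le_mul_of_nonneg_left key hc.le
    linarith
  have h4 := mul_le_mul_of_nonneg_left h3 hs
  unfold R at h4
  linarith

theorem part_le (d : ℝ) (hd : 0 < d) (j : ℕ) :
    part (1 / 2) tt d (8 * j) + surv (1 / 2) tt d (8 * j) *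
      (time tt (8 * j) + 2 ^ j / 33 * Wh (33 * d / 2 ^ j)) ≤ 1 / 33 * Wh (33 * d) := by
  induction j with
  | zero => simp [part, surv, time]
  | succ j ih =>
    refine le_trans ?_ ih
    have h := block j (33 * d / 2 ^ j) (by positivity)
    have e : (2 : ℝ) ^ j / 33 * (33 * d / 2 ^ j) = d := by field_simp
    have e' : 33 * d / 2 ^ j / 2 = 33 * d / 2 ^ (j + 1) := by rw [pow_succ]; field_simp
    rw [e, e'] at h
    exact h

theorem Wh_nonneg {x : ℝ} (hx : 0 < x) : 0 ≤ Wh x := by
  unfold Wh; split_ifs <;> linarith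

theorem term_nonneg (d : ℝ) (k : ℕ) :
    0 ≤ surv (1 / 2) tt d k * det (1 / 2) (tt k) (tt (k + 1)) d * (time tt k + |d - tt k|) :=
  mul_nonneg (mul_nonneg (surv_nonneg (by norm_num) _ _ _) (det_nonneg (by norm_num) _ _ _))
    (add_nonneg (sum_nonneg fun _ _ => abs_nonneg _) (abs_nonneg _))

theorem exp_le (d : ℝ) (hd : 0 < d) :
    expTime (1 / 2) tt d ≤ ENNReal.ofReal (1 / 33 * Wh (33 * d)) := by
  refine ENNReal.tsum_le_of_sum_range_le fun n => ?_
  refine le_trans (sum_le_sum_of_subset (range_mono (by omega : n ≤ 8 * n))) ?_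
  rw [← ENNReal.ofReal_sum_of_nonneg fun k _ => term_nonneg d k]
  refine ENNReal.ofReal_le_ofReal (le_trans ?_ (part_le d hd n))
  have h1 : 0 ≤ surv (1 / 2) tt d (8 * n) *
      (time tt (8 * n) + 2 ^ n / 33 * Wh (33 * d / 2 ^ n)) :=
    mul_nonneg (surv_nonneg (by norm_num) _ _ _)
      (add_nonneg (sum_nonneg fun _ _ => abs_nonneg _)
        (mul_nonneg (by positivity) (Wh_nonneg (by positivity))))
  unfold part at *
  linarith

theorem traj : IsTraj tt := by
  have v : ∀ k, ∃ j i, k = 8 * j + i ∧ i < 8 := fun k => ⟨k / 8, k % 8, by omega, by omega⟩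
  refine ⟨by simp [tt, A], fun i => ?_, fun i => ?_, fun i => ?_⟩
  · unfold tt
    have : 0 ≤ A (i % 8) := by
      have h : i % 8 < 8 := Nat.mod_lt _ (by norm_num)
      interval_cases i % 8 <;> simp [A]
    positivity
  · obtain ⟨j, l, h1, h2⟩ : ∃ j l, i = 4 * j + l ∧ l < 4 := ⟨i / 4, i % 4, by omega, by omega⟩
    have hc : (0 : ℝ) < 2 ^ j / 33 := by positivity
    rw [show 2 * i = 8 * j + 2 * l by omega, show 8 * j + 2 * l + 1 = 8 * j + (2 * l + 1) by ring,
      tt_val j _ (by omega), tt_val j _ (by omega)]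
    refine mul_lt_mul_of_pos_left ?_ hc
    interval_cases l <;> norm_num [A]
  · obtain ⟨j, l, h1, h2⟩ : ∃ j l, i = 4 * j + l ∧ l < 4 := ⟨i / 4, i % 4, by omega, by omega⟩
    have hc : (0 : ℝ) < 2 ^ j / 33 := by positivity
    rcases Nat.lt_or_ge l 3 with h3 | h3
    · rw [show 2 * i + 2 = 8 * j + (2 * l + 2) by omega,
        show 2 * i + 1 = 8 * j + (2 * l + 1) by omega,
        tt_val j _ (by omega), tt_val j _ (by omega)]
      refine mul_lt_mul_of_pos_left ?_ hc
      interval_cases l <;> norm_num [A]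
    · rw [show 2 * i + 2 = 8 * j + 8 by omega, show 2 * i + 1 = 8 * j + 7 by omega,
        tt_8, tt_val j _ (by omega)]
      refine mul_lt_mul_of_pos_left ?_ hc
      norm_num [A]

/-- **There is a trajectory of competitive ratio smaller than `4 - p`, for `p = 1 / 2`.**  Its ratio
is at most `52 / 15 < 7 / 2`. -/
theorem result :
    ∃ p : ℝ, 0 < p ∧ p < 1 ∧ ∃ t : ℕ → ℝ, IsTraj t ∧ (∀ d : ℝ, 1 ≤ d → expTime p t d ≠ ⊤) ∧
      ratio p t < ENNReal.ofReal (4 - p) ∧
      p = 1 / 2 ∧ ratio p t ≤ ENNReal.ofReal (52 / 15) := by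
  have h1 : ratio (1 / 2) tt ≤ ENNReal.ofReal (52 / 15) := by
    refine iSup_le fun ⟨d, hd⟩ => ?_
    have hd0 : 0 < d := by linarith
    have h2 := exp_le d hd0
    rw [Wh5 (by linarith)] at h2
    rw [ENNReal.div_le_iff (by simpa using hd0) ENNReal.ofReal_ne_top,
      ← ENNReal.ofReal_mul (by norm_num)]
    refine (mul_le_mul_right h2 _).trans ?_
    rw [← ENNReal.ofReal_mul (by norm_num)]
    exact ENNReal.ofReal_le_ofReal (by linarith)
  refine ⟨1 / 2, by norm_num, by norm_num, tt, traj, fun d hd => ?_, ?_, rfl, h1⟩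
  · exact ((exp_le d (by linarith)).trans_lt ENNReal.ofReal_lt_top).ne
  · refine h1.trans_lt ?_
    exact (ENNReal.ofReal_lt_ofReal_iff (by norm_num)).2 (by norm_num)

end Pool.Agent.Results.MP_1aa7fe_lc.BelowFourMinusP
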